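import Pool.Agent.L0h71.SJ.Row

/-! # SJ, module FOUR: the number of the `σ` for which given vectors are solutions -/

set_option autoImplicit false

open scoped Classical

namespace Pool.Agent.L0h71.SJ

open Finset Pool.Agent.L0h1.SJ

theorem z2_one {a : ZMod 2} (h : a ≠ 0) : a = 1 := by
  have h' : ∀ a : ZMod 2, a ≠ 0 → a = 1 := by decide
  exact h' a h

theorem sr_add (a b : ZMod 2) : sr (a + b) = sr a * sr b := by
  by_cases ha : a = 0
  · rw [ha, zero_add]
    simp [sr]
  · by_cases hb : b = 0
    · rw [hb, add_zero]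
      simp [sr]
    · rw [z2_one ha, z2_one hb]
      have h1 : (1 : ZMod 2) + 1 = 0 := by decide
      rw [h1]
      simp [sr]

theorem sr_zero : sr 0 = 1 := by
  simp [sr]

theorem sr_one : sr 1 = -1 := by
  simp [sr]

theorem sum_sr {G : Type} [Fintype G] [AddGroup G] (L : G → ZMod 2)
    (hL : ∀ a b, L (a + b) = L a + L b) (g0 : G) (h : L g0 ≠ 0) : ∑ g, sr (L g) = 0 := by
  have h1 : ∑ g, sr (L (g + g0)) = ∑ g, sr (L g) :=
    Fintype.sum_equiv (Equiv.addRight g0) _ _ fun g => rfl
  have h2 : ∑ g, sr (L (g + g0)) = -∑ g, sr (L g) := by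
    rw [← Finset.sum_neg_distrib]
    refine Finset.sum_congr rfl fun g _ => ?_
    rw [hL, sr_add, z2_one h, sr_one]
    ring
  linarith

theorem pr_add {J I : Type} [Fintype J] [Fintype I] (y z b : J → I → ZMod 2) :
    pr (y + z) b = pr y b + pr z b := by
  unfold pr
  simp only [Pi.add_apply, add_mul, Finset.sum_add_distrib]

theorem pr_add_right {J I : Type} [Fintype J] [Fintype I] (y z b : J → I → ZMod 2) :
    pr y (z + b) = pr y z + pr y b := by
  unfold pr
  simp only [Pi.add_apply, mul_add, Finset.sum_add_distrib]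

theorem mem_RX {J I : Type} [Fintype J] [Fintype I] (X y : J → I → ZMod 2) :
    y ∈ RX X ↔ ∀ p q, ∑ i, (y p i + y q i) * (X p i + X q i) = 0 := by
  unfold RX
  rw [Finset.mem_filter]
  exact ⟨fun h => h.2, fun h => ⟨Finset.mem_univ _, h⟩⟩

theorem sum_pr {J I : Type} [Fintype J] [Fintype I] [DecidableEq J] [DecidableEq I]
    (b : J → I → ZMod 2) :
    ∑ y : J → I → ZMod 2, sr (pr y b) =
      if b = 0 then 2 ^ (Fintype.card J * Fintype.card I) else 0 := by
  by_cases hb : b = 0
  · rw [if_pos hb, hb]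
    have h1 : ∀ y : J → I → ZMod 2, sr (pr y 0) = 1 := by
      intro y
      have : pr y 0 = 0 := by
        unfold pr
        simp
      rw [this, sr_zero]
    simp only [h1, Finset.sum_const, nsmul_eq_mul, mul_one, Finset.card_univ]
    rw [Fintype.card_fun, Fintype.card_fun, ZMod.card]
    push_cast
    rw [← pow_mul, mul_comm]
  · rw [if_neg hb]
    obtain ⟨q, hq⟩ := Function.ne_iff.1 hb
    obtain ⟨i, hi⟩ := Function.ne_iff.1 hq
    refine sum_sr (fun y => pr y b) (fun y z => pr_add y z b)
      (fun q' i' => if q' = q ∧ i' = i then 1 else 0) ?_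
    have h1 : pr (fun q' i' => if q' = q ∧ i' = i then 1 else 0) b = b q i := by
      unfold pr
      rw [Finset.sum_eq_single q, Finset.sum_eq_single i]
      · simp
      · intro i' _ hi'
        show (if q = q ∧ i' = i then (1 : ZMod 2) else 0) * b q i' = 0
        rw [if_neg (fun h => hi' h.2), zero_mul]
      · intro h
        exact absurd (Finset.mem_univ _) h
      · intro q' _ hq'
        refine Finset.sum_eq_zero fun i' _ => ?_
        show (if q' = q ∧ i' = i then (1 : ZMod 2) else 0) * b q' i' = 0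
        rw [if_neg (fun h => hq' h.1), zero_mul]
      · intro h
        exact absurd (Finset.mem_univ _) h
    rw [h1]
    exact hi

section sx

variable {J : Type} [Fintype J] [LinearOrder J]

theorem mem_ps (a b : J) : (a, b) ∈ ps J ↔ a < b := by
  simp [ps]

theorem sx_symm (σ : ps J → ZMod 2) (p q : J) : sx σ p q = sx σ q p := by
  unfold sx
  rcases lt_trichotomy p q with h | h | h
  · have h1 : (p, q) ∈ ps J := (mem_ps p q).2 h
    have h2 : (q, p) ∉ ps J := fun hh => absurd ((mem_ps q p).1 hh) (not_lt.2 h.le)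
    rw [dif_pos h1, dif_neg h2, dif_pos h1]
  · rw [h]
  · have h1 : (q, p) ∈ ps J := (mem_ps q p).2 h
    have h2 : (p, q) ∉ ps J := fun hh => absurd ((mem_ps p q).1 hh) (not_lt.2 h.le)
    rw [dif_neg h2, dif_pos h1, dif_pos h1]

theorem sx_self (σ : ps J → ZMod 2) (p : J) : sx σ p p = 0 := by
  unfold sx
  have h2 : (p, p) ∉ ps J := fun hh => absurd ((mem_ps p p).1 hh) (lt_irrefl _)
  rw [dif_neg h2, dif_neg h2]

theorem sx_add (σ τ : ps J → ZMod 2) (p q : J) : sx (σ + τ) p q = sx σ p q + sx τ p q := by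
  unfold sx
  split_ifs <;> simp

/-- The change of the left sides. -/
noncomputable def phi {I : Type} (X : J → I → ZMod 2) (σ : ps J → ZMod 2) (q : J) (i : I) :
    ZMod 2 :=
  ∑ p, (X p i + X q i) * sx σ q p

theorem phi_add {I : Type} (X : J → I → ZMod 2) (σ τ : ps J → ZMod 2) :
    phi X (σ + τ) = phi X σ + phi X τ := by
  funext q i
  unfold phi
  simp only [Pi.add_apply, sx_add, mul_add, Finset.sum_add_distrib]

theorem pr_phi {I : Type} [Fintype I] (X y : J → I → ZMod 2) (σ : ps J → ZMod 2) :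
    pr y (phi X σ) = ∑ q, ∑ p, sx σ q p * ∑ i, y q i * (X p i + X q i) := by
  unfold pr phi
  refine Finset.sum_congr rfl fun q _ => ?_
  simp_rw [Finset.mul_sum]
  rw [Finset.sum_comm]
  refine Finset.sum_congr rfl fun p _ => Finset.sum_congr rfl fun i _ => ?_
  ring

theorem sum_split {I : Type} [Fintype I] (X y : J → I → ZMod 2) (p q : J) :
    ∑ i, y q i * (X p i + X q i) + ∑ i, y p i * (X q i + X p i) =
      ∑ i, (y p i + y q i) * (X p i + X q i) := by
  rw [← Finset.sum_add_distrib]
  refine Finset.sum_congr rfl fun i _ => ?_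
  ring

theorem pr_phi_zero {I : Type} [Fintype I] (X y : J → I → ZMod 2) (hy : y ∈ RX X)
    (σ : ps J → ZMod 2) : pr y (phi X σ) = 0 := by
  rw [pr_phi, sum_symm]
  · refine Finset.sum_eq_zero fun q _ => ?_
    rw [sx_self, zero_mul]
  · intro p q
    have hy' : ∀ p q, ∑ i, (y p i + y q i) * (X p i + X q i) = 0 := (mem_RX X y).1 hy
    have h1 := sum_split X y p q
    rw [hy'] at h1
    have h2 := z2_eq h1
    rw [sx_symm, h2]

theorem pr_phi_ne {I : Type} [Fintype I] (X y : J → I → ZMod 2) (p0 q0 : J) (hlt : p0 < q0)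
    (hne : ∑ i, (y p0 i + y q0 i) * (X p0 i + X q0 i) ≠ 0) :
    ∃ σ : ps J → ZMod 2, pr y (phi X σ) ≠ 0 := by
  refine ⟨fun e => if e.1 = (p0, q0) then 1 else 0, ?_⟩
  rw [pr_phi]
  have hsx : ∀ q p : J, sx (fun e : ps J => if e.1 = (p0, q0) then (1 : ZMod 2) else 0) q p =
      (if q = p0 then (if p = q0 then 1 else 0) else 0) +
        (if q = q0 then (if p = p0 then 1 else 0) else 0) := by
    intro q p
    unfold sx
    rcases lt_trichotomy q p with h | h | h
    · rw [dif_pos ((mem_ps q p).2 h)]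
      simp only [Prod.mk.injEq]
      have h3 : (if q = q0 then (if p = p0 then (1 : ZMod 2) else 0) else 0) = 0 := by
        by_cases h4 : q = q0
        · rw [if_pos h4, if_neg]
          intro h5
          rw [h4, h5] at h
          exact absurd h (not_lt.2 hlt.le)
        · rw [if_neg h4]
      rw [h3, add_zero]
      by_cases h4 : q = p0
      · by_cases h5 : p = q0
        · rw [if_pos ⟨h4, h5⟩, if_pos h4, if_pos h5]
        · rw [if_neg (fun h => h5 h.2), if_pos h4, if_neg h5]
      · rw [if_neg (fun h => h4 h.1), if_neg h4]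
    · have h2 : (q, p) ∉ ps J := fun hh => by
        rw [h] at hh
        exact absurd ((mem_ps p p).1 hh) (lt_irrefl _)
      have h2' : (p, q) ∉ ps J := fun hh => by
        rw [h] at hh
        exact absurd ((mem_ps p p).1 hh) (lt_irrefl _)
      rw [dif_neg h2, dif_neg h2']
      subst h
      have hA : (if q = p0 then (if q = q0 then (1 : ZMod 2) else 0) else 0) = 0 := by
        by_cases h4 : q = p0
        · rw [if_pos h4, if_neg]
          intro h5
          rw [← h4, ← h5] at hlt
          exact absurd hlt (lt_irrefl _)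
        · rw [if_neg h4]
      have hB : (if q = q0 then (if q = p0 then (1 : ZMod 2) else 0) else 0) = 0 := by
        by_cases h4 : q = q0
        · rw [if_pos h4, if_neg]
          intro h5
          rw [← h4, ← h5] at hlt
          exact absurd hlt (lt_irrefl _)
        · rw [if_neg h4]
      rw [hA, hB, add_zero]
    · have h2 : (q, p) ∉ ps J := fun hh => absurd ((mem_ps q p).1 hh) (not_lt.2 h.le)
      rw [dif_neg h2, dif_pos ((mem_ps p q).2 h)]
      simp only [Prod.mk.injEq]
      have h3 : (if q = p0 then (if p = q0 then (1 : ZMod 2) else 0) else 0) = 0 := by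
        by_cases h4 : q = p0
        · rw [if_pos h4, if_neg]
          intro h5
          rw [h4, h5] at h
          exact absurd h (not_lt.2 hlt.le)
        · rw [if_neg h4]
      rw [h3, zero_add]
      by_cases h4 : q = q0
      · by_cases h5 : p = p0
        · rw [if_pos ⟨h5, h4⟩, if_pos h4, if_pos h5]
        · rw [if_neg (fun h => h5 h.1), if_pos h4, if_neg h5]
      · rw [if_neg (fun h => h4 h.2), if_neg h4]
  simp only [hsx, add_mul, ite_mul, one_mul, zero_mul, Finset.sum_add_distrib]
  have h1 : ∀ (a b : J) (g : J → J → ZMod 2),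
      ∑ x, ∑ x1, (if x = a then (if x1 = b then g x x1 else 0) else 0) = g a b := by
    intro a b g
    rw [Finset.sum_eq_single a, Finset.sum_eq_single b]
    · simp
    · intro x _ hx
      rw [if_pos rfl, if_neg hx]
    · intro h
      exact absurd (Finset.mem_univ _) h
    · intro x _ hx
      refine Finset.sum_eq_zero fun x1 _ => ?_
      rw [if_neg hx]
    · intro h
      exact absurd (Finset.mem_univ _) h
  rw [h1 p0 q0 (fun x x1 => ∑ i, y x i * (X x1 i + X x i)),
    h1 q0 p0 (fun x x1 => ∑ i, y x i * (X x1 i + X x i)), add_comm, sum_split]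
  exact hne

theorem sum_phi {I : Type} [Fintype I] (X y : J → I → ZMod 2) :
    ∑ σ : ps J → ZMod 2, sr (pr y (phi X σ)) = if y ∈ RX X then 2 ^ (ps J).card else 0 := by
  by_cases hy : y ∈ RX X
  · rw [if_pos hy]
    simp only [pr_phi_zero X y hy, sr_zero, Finset.sum_const, nsmul_eq_mul, mul_one,
      Finset.card_univ]
    rw [Fintype.card_fun, ZMod.card, Fintype.card_coe]
    push_cast
    rfl
  · rw [if_neg hy]
    have h1 : ∃ p q, ∑ i, (y p i + y q i) * (X p i + X q i) ≠ 0 := by
      by_contra hcon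
      push Not at hcon
      exact hy ((mem_RX X y).2 hcon)
    obtain ⟨p, q, hpq⟩ := h1
    have h2 : ∃ σ : ps J → ZMod 2, pr y (phi X σ) ≠ 0 := by
      rcases lt_trichotomy p q with h | h | h
      · exact pr_phi_ne X y p q h hpq
      · exfalso
        apply hpq
        rw [h]
        refine Finset.sum_eq_zero fun i _ => ?_
        rw [z2_self, zero_mul]
      · apply pr_phi_ne X y q p h
        intro h3
        apply hpq
        rw [← h3]
        refine Finset.sum_congr rfl fun i _ => ?_
        ring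
    obtain ⟨σ, hσ⟩ := h2
    refine sum_sr (fun σ => pr y (phi X σ)) (fun σ τ => ?_) σ hσ
    rw [phi_add, pr_add_right]

end sx

theorem solT_iff {t : ℕ} {K : Fin t → ℕ} {U : Fin t → Type} [∀ l, Fintype (U l)] {J : Type}
    [Fintype J] [LinearOrder J] (N : ∀ l, U l ⊕ J → U l ⊕ J → ZMod 2) (ξ : Tu K U J)
    (σ : ps J → ZMod 2) : SolT N σ ξ ↔ Sml N ξ ∧ tg N ξ + phi (Xf ξ) σ = 0 := by
  have hL : ∀ l i v, ∑ p, (ξ l i p + ξ l i (Sum.inl v)) * pt (N l) (sx σ) (Sum.inl v) p =
      L0h1.SJ.sq N ξ l i v := by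
    intro l i v
    unfold L0h1.SJ.sq
    refine Finset.sum_congr rfl fun p _ => ?_
    rcases p with p | p <;> rfl
  have hR : ∀ l (i : Fin (K l)) q, ∑ p, (ξ l i p + ξ l i (Sum.inr q)) *
      pt (N l) (sx σ) (Sum.inr q) p = tg N ξ q ⟨l, i⟩ + phi (Xf ξ) σ q ⟨l, i⟩ := by
    intro l i q
    unfold tg phi
    rw [Fintype.sum_sum_type, Fintype.sum_sum_type, add_assoc, ← Finset.sum_add_distrib]
    congr 1
    refine Finset.sum_congr rfl fun p _ => ?_
    show (ξ l i (Sum.inr p) + ξ l i (Sum.inr q)) * (N l (Sum.inr q) (Sum.inr p) + sx σ q p) = _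
    rw [mul_add]
    rfl
  constructor
  · intro h
    refine ⟨fun l i v => ?_, ?_⟩
    · rw [← hL]
      exact h l i (Sum.inl v)
    · funext q i
      obtain ⟨l, i⟩ := i
      show tg N ξ q ⟨l, i⟩ + phi (Xf ξ) σ q ⟨l, i⟩ = 0
      rw [← hR]
      exact h l i (Sum.inr q)
  · rintro ⟨h1, h2⟩ l i q
    rcases q with v | q
    · rw [hL]
      exact h1 l i v
    · rw [hR]
      exact congrFun (congrFun h2 q) ⟨l, i⟩

theorem t_FOUR : S_FOUR := by
  intro t K U _ J _ _ N ξ
  by_cases hs : Sml N ξ
  · rw [if_pos hs]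
    have h1 : ((univ.filter fun σ : ps J → ZMod 2 => SolT N σ ξ).card : ℝ) *
        2 ^ (Fintype.card J * Fintype.card (Ix K)) =
        ∑ σ : ps J → ZMod 2, ∑ y : J → Ix K → ZMod 2, sr (pr y (tg N ξ + phi (Xf ξ) σ)) := by
      simp only [sum_pr]
      rw [Finset.sum_ite, Finset.sum_const_zero, add_zero, Finset.sum_const, nsmul_eq_mul]
      congr 3
      ext σ
      rw [Finset.mem_filter, Finset.mem_filter, solT_iff]
      constructor
      · rintro ⟨h1, _, h2⟩
        exact ⟨h1, h2⟩
      · rintro ⟨h1, h2⟩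
        exact ⟨h1, hs, h2⟩
    rw [h1, Finset.sum_comm]
    have h2 : ∀ y : J → Ix K → ZMod 2,
        ∑ σ : ps J → ZMod 2, sr (pr y (tg N ξ + phi (Xf ξ) σ)) =
        if y ∈ RX (Xf ξ) then 2 ^ (ps J).card * sr (pr y (tg N ξ)) else 0 := by
      intro y
      simp only [pr_add_right, sr_add]
      rw [← Finset.mul_sum, sum_phi]
      split_ifs
      · ring
      · rw [mul_zero]
    simp only [h2]
    rw [← Finset.sum_filter, Finset.mul_sum]
    refine Finset.sum_congr ?_ fun y _ => rfl
    ext y
    simp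
  · rw [if_neg hs, mul_zero]
    have h1 : (univ.filter fun σ : ps J → ZMod 2 => SolT N σ ξ) = ∅ := by
      rw [Finset.filter_eq_empty_iff]
      intro σ _ h
      exact hs ((solT_iff N ξ σ).1 h).1
    rw [h1, Finset.card_empty, Nat.cast_zero, zero_mul]

end Pool.Agent.L0h71.SJ
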