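import Pool.Agent.L0h71.SJ.Row

/-! # SJ, module GRD -/

set_option autoImplicit false

open scoped Classical

namespace Pool.Agent.L0h71.SJ

open Finset Pool.Agent.L0h1.SJ

theorem z2_one' {a : ZMod 2} (h : a ≠ 0) : a = 1 := by
  have h' : ∀ a : ZMod 2, a ≠ 0 → a = 1 := by decide
  exact h' a h

theorem z2_ne {a b : ZMod 2} (h : a ≠ b) : a + b = 1 := by
  have h' : ∀ a b : ZMod 2, a ≠ b → a + b = 1 := by decide
  exact h' a b h

section DX

variable {J I : Type} [Fintype J] [Fintype I]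

theorem mem_DX' (X : J → I → ZMod 2) (c : I → ZMod 2) :
    c ∈ DX X ↔ ∀ p q, ∑ i, c i * (X p i + X q i) = 0 := by
  unfold DX
  rw [Finset.mem_filter]
  exact ⟨fun h => h.2, fun h => ⟨Finset.mem_univ _, h⟩⟩

theorem mem_RX' (X y : J → I → ZMod 2) :
    y ∈ RX X ↔ ∀ p q, ∑ i, (y p i + y q i) * (X p i + X q i) = 0 := by
  unfold RX
  rw [Finset.mem_filter]
  exact ⟨fun h => h.2, fun h => ⟨Finset.mem_univ _, h⟩⟩

theorem DX_add (X : J → I → ZMod 2) {c d : I → ZMod 2} (hc : c ∈ DX X) (hd : d ∈ DX X) :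
    c + d ∈ DX X := by
  rw [mem_DX'] at hc hd ⊢
  intro p q
  simp only [Pi.add_apply, add_mul, Finset.sum_add_distrib]
  rw [hc, hd, add_zero]

theorem DX_smul (X : J → I → ZMod 2) (a : ZMod 2) {c : I → ZMod 2} (hc : c ∈ DX X) :
    (fun i => a * c i) ∈ DX X := by
  rw [mem_DX'] at hc ⊢
  intro p q
  simp only [mul_assoc]
  rw [← Finset.mul_sum, hc, mul_zero]

/-- The orthogonality gives equations at every large index. -/
theorem orth_eq (X b : J → I → ZMod 2) (hor : ∀ y ∈ RX X, pr y b = 0) {c : I → ZMod 2}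
    (hc : c ∈ DX X) (q : J) : ∑ i, c i * b q i = 0 := by
  have h1 : (fun q' i => (if q' = q then (1 : ZMod 2) else 0) * c i) ∈ RX X := by
    rw [mem_RX']
    intro p p'
    rw [mem_DX'] at hc
    have h2 : ∀ i, ((if p = q then (1 : ZMod 2) else 0) * c i +
        (if p' = q then (1 : ZMod 2) else 0) * c i) * (X p i + X p' i) =
        ((if p = q then (1 : ZMod 2) else 0) + (if p' = q then (1 : ZMod 2) else 0)) *
          (c i * (X p i + X p' i)) := by
      intro i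
      ring
    simp only [h2]
    rw [← Finset.mul_sum, hc, mul_zero]
  have h3 := hor _ h1
  unfold pr at h3
  rw [Finset.sum_eq_single q] at h3
  · simpa using h3
  · intro q' _ hq'
    refine Finset.sum_eq_zero fun i _ => ?_
    show (if q' = q then (1 : ZMod 2) else 0) * c i * b q' i = 0
    rw [if_neg hq', zero_mul, zero_mul]
  · intro h
    exact absurd (Finset.mem_univ _) h

theorem DX_const (X : J → I → ZMod 2) {c : I → ZMod 2} (hc : c ∈ DX X) (p q : J) :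
    ∑ i, c i * X p i = ∑ i, c i * X q i := by
  rw [mem_DX'] at hc
  have h1 := hc p q
  simp only [mul_add, Finset.sum_add_distrib] at h1
  exact z2_eq h1

end DX

section main

variable {t n : ℕ} {K : Fin t → ℕ} {U : Fin t → Type} [∀ l, Fintype (U l)] {J : Type}
  [Fintype J] {w : ∀ l, U l ⊕ J → ZMod 2} {uU : ∀ l, U l → ZMod 2} {uJ : J → ZMod 2}
  {N : ∀ l, U l ⊕ J → U l ⊕ J → ZMod 2} {NJ : J → J → ZMod 2}
  {x : Fin t → Fin n → ZMod 2} {JR : Fin n → Finset J}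

theorem tg_eq (hl : Hl w uU uJ N NJ x JR) (ξ : Tu K U J) (q : J) (i : Ix K) :
    tg N ξ q i = ∑ v, ξ i.1 i.2 (Sum.inl v) * N i.1 (Sum.inr q) (Sum.inl v) +
      Xf ξ q i * de N i.1 q + ∑ p, NJ q p * (Xf ξ p i + Xf ξ q i) := by
  unfold tg
  rw [Fintype.sum_sum_type]
  congr 1
  · unfold de
    rw [Finset.mul_sum, ← Finset.sum_add_distrib]
    refine Finset.sum_congr rfl fun v _ => ?_
    rw [add_mul]
    rfl
  · refine Finset.sum_congr rfl fun p _ => ?_
    show (Xf ξ p i + Xf ξ q i) * N i.1 (Sum.inr q) (Sum.inr p) = _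
    by_cases hpq : q = p
    · rw [hpq, z2_self, zero_mul, mul_zero]
    · rw [hl.com i.1 q p hpq, mul_comm]

theorem star (hl : Hl w uU uJ N NJ x JR) (ξ : Tu K U J)
    (hor : ∀ y ∈ RX (Xf ξ), pr y (tg N ξ) = 0) {c : Ix K → ZMod 2} (hc : c ∈ DX (Xf ξ)) (q : J) :
    ∑ i, c i * (Xf ξ q i * de N i.1 q) =
      ∑ i : Ix K, c i * ∑ v, ξ i.1 i.2 (Sum.inl v) * N i.1 (Sum.inr q) (Sum.inl v) := by
  have h1 := orth_eq (Xf ξ) (tg N ξ) hor hc q
  simp only [tg_eq hl, mul_add, Finset.sum_add_distrib] at h1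
  have h2 : ∑ i : Ix K, c i * ∑ p, NJ q p * (Xf ξ p i + Xf ξ q i) = 0 := by
    simp_rw [Finset.mul_sum]
    rw [Finset.sum_comm]
    refine Finset.sum_eq_zero fun p _ => ?_
    rw [mem_DX'] at hc
    have h3 : ∀ i, c i * (NJ q p * (Xf ξ p i + Xf ξ q i)) =
        NJ q p * (c i * (Xf ξ p i + Xf ξ q i)) := by
      intro i
      ring
    simp only [h3]
    rw [← Finset.mul_sum, hc, mul_zero]
  have h4 : ∑ i : Ix K, c i * ∑ p, NJ q p * (Xf ξ p i + Xf ξ q i) =
      ∑ i : Ix K, c i * ∑ p, (NJ q p * Xf ξ p i + NJ q p * Xf ξ q i) := by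
    simp only [mul_add]
  simp only [Finset.sum_add_distrib, mul_add] at h4 h2
  rw [h2, add_zero] at h1
  rw [add_comm] at h1
  exact z2_eq h1

theorem third (hl : Hl w uU uJ N NJ x JR) (ξ : Tu K U J)
    (hor : ∀ y ∈ RX (Xf ξ), pr y (tg N ξ) = 0) {c : Ix K → ZMod 2} (hc : c ∈ DX (Xf ξ))
    (r : Fin n) (l₀ : Fin t) (q : J) (hq : q ∈ JR r) :
    ∑ i : Ix K, x i.1 r * c i * Xf ξ q i =
      (∑ i, c i * Xf ξ q i) * (de N l₀ q + x l₀ r) +
        ∑ i : Ix K, c i * ∑ v, ξ i.1 i.2 (Sum.inl v) * N i.1 (Sum.inr q) (Sum.inl v) := by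
  rw [← star hl ξ hor hc q, Finset.sum_mul, ← Finset.sum_add_distrib]
  refine Finset.sum_congr rfl fun i _ => ?_
  have h1 := (hl.jr r q hq).2 i.1 l₀
  have h2 : c i * Xf ξ q i * (de N l₀ q + x l₀ r) + c i * (Xf ξ q i * de N i.1 q) =
      c i * Xf ξ q i * ((de N l₀ q + x l₀ r) + de N i.1 q) := by ring
  rw [h2, ← h1]
  have h3 : de N i.1 q + x i.1 r + de N i.1 q = x i.1 r + (de N i.1 q + de N i.1 q) := by ring
  rw [h3, z2_self, add_zero]
  ring

/-- The restriction to a block. -/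
theorem block (hl : Hl w uU uJ N NJ x JR) (ξ : Tu K U J)
    (hst : ∀ r, ∀ c ∈ DX (Xf ξ), (fun i : Ix K => x i.1 r * c i) ∈ DX (Xf ξ))
    (c : Ix K → ZMod 2) (hc : c ∈ DX (Xf ξ)) (l : Fin t) (T : Finset (Fin t)) (hT : l ∉ T) :
    ∃ c' ∈ DX (Xf ξ), (∀ j, c' ⟨l, j⟩ = c ⟨l, j⟩) ∧ ∀ l' ∈ T, ∀ j, c' ⟨l', j⟩ = 0 := by
  induction T using Finset.induction_on with
  | empty => exact ⟨c, hc, fun _ => rfl, fun l' hl' => absurd hl' (Finset.notMem_empty _)⟩
  | insert l' T hl' ih =>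
    have hne : l ≠ l' := fun h => hT (h ▸ Finset.mem_insert_self _ _)
    obtain ⟨c', hc', h1, h2⟩ := ih fun h => hT (Finset.mem_insert_of_mem h)
    obtain ⟨r, hr⟩ := hl.sep l l' hne
    refine ⟨(fun i : Ix K => x i.1 r * c' i) + (fun i : Ix K => x l' r * c' i),
      DX_add _ (hst r c' hc') (DX_smul _ _ hc'), ?_, ?_⟩
    · intro j
      show x l r * c' ⟨l, j⟩ + x l' r * c' ⟨l, j⟩ = _
      rw [← add_mul, z2_ne hr, one_mul, h1]
    · intro l'' hl'' j
      show x l'' r * c' ⟨l'', j⟩ + x l' r * c' ⟨l'', j⟩ = 0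
      rcases Finset.mem_insert.1 hl'' with h | h
      · subst h
        exact z2_self _
      · rw [h2 l'' h, mul_zero, mul_zero, add_zero]

theorem four (hl : Hl w uU uJ N NJ x JR) (hJ : Nonempty J) (ξ : Tu K U J) (hind : IndT ξ)
    (hor : ∀ y ∈ RX (Xf ξ), pr y (tg N ξ) = 0) (hc : ∃ c ∈ DX (Xf ξ), c ≠ 0) :
    ∃ r, ∃ c ∈ DX (Xf ξ), (fun i : Ix K => x i.1 r * c i) ∉ DX (Xf ξ) := by
  by_contra hcon
  have hst : ∀ r, ∀ c ∈ DX (Xf ξ), (fun i : Ix K => x i.1 r * c i) ∈ DX (Xf ξ) := by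
    intro r c hc'
    by_contra h
    exact hcon ⟨r, c, hc', h⟩
  obtain ⟨c, hc, hne⟩ := hc
  obtain ⟨⟨l, i⟩, hi⟩ := Function.ne_iff.1 hne
  obtain ⟨c', hc', h1, h2⟩ := block hl ξ hst c hc l (Finset.univ.erase l)
    (Finset.notMem_erase _ _)
  have h2' : ∀ l', l' ≠ l → ∀ j, c' ⟨l', j⟩ = 0 := fun l' hl' j =>
    h2 l' (Finset.mem_erase.2 ⟨hl', Finset.mem_univ _⟩) j
  have hsum : ∀ f : Ix K → ZMod 2, ∑ i, c' i * f i = ∑ j, c ⟨l, j⟩ * f ⟨l, j⟩ := by
    intro f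
    rw [Fintype.sum_sigma, Finset.sum_eq_single l]
    · exact Finset.sum_congr rfl fun j _ => by rw [h1]
    · intro l' _ hl'
      refine Finset.sum_eq_zero fun j _ => ?_
      rw [h2' l' hl', zero_mul]
    · intro h
      exact absurd (Finset.mem_univ _) h
  obtain ⟨q0⟩ := hJ
  set z : U l ⊕ J → ZMod 2 := fun p => ∑ j, c ⟨l, j⟩ * ξ l j p with hz
  set e := z (Sum.inr q0) with he
  have hzJ : ∀ q, z (Sum.inr q) = e := by
    intro q
    have := DX_const (Xf ξ) hc' q q0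
    rw [hsum, hsum] at this
    exact this
  have h3 : ∀ q, ∑ v, (z (Sum.inl v) + e) * N l (Sum.inr q) (Sum.inl v) = 0 := by
    intro q
    have h4 := star hl ξ hor hc' q
    rw [hsum, hsum] at h4
    have h5 : ∑ j, c ⟨l, j⟩ * (Xf ξ q ⟨l, j⟩ * de N l q) = e * de N l q := by
      rw [← hzJ q, hz, Finset.sum_mul]
      refine Finset.sum_congr rfl fun j _ => ?_
      rw [mul_assoc]
      rfl
    have h6 : ∑ j, c ⟨l, j⟩ * ∑ v, ξ l j (Sum.inl v) * N l (Sum.inr q) (Sum.inl v) =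
        ∑ v, z (Sum.inl v) * N l (Sum.inr q) (Sum.inl v) := by
      rw [hz]
      simp_rw [Finset.mul_sum, Finset.sum_mul]
      rw [Finset.sum_comm]
      refine Finset.sum_congr rfl fun v _ => Finset.sum_congr rfl fun j _ => ?_
      ring
    simp only [] at h4
    rw [h5, h6] at h4
    simp only [add_mul, Finset.sum_add_distrib]
    rw [← h4, ← Finset.mul_sum]
    exact z2_self _
  have h7 : ∀ q, ∑ v, ((z (Sum.inl v) + e) * w l (Sum.inl v)) * N l (Sum.inl v) (Sum.inr q) +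
      (∑ v, (z (Sum.inl v) + e) * uU l v) * uJ q = 0 := by
    intro q
    rw [← h3 q, Finset.sum_mul, ← Finset.sum_add_distrib]
    refine Finset.sum_congr rfl fun v _ => ?_
    have h8 := hl.rc l (Sum.inr q) (Sum.inl v) (by simp)
    rw [hl.w1, one_mul] at h8
    simp only [Sum.elim_inl, Sum.elim_inr] at h8
    have h9 : N l (Sum.inr q) (Sum.inl v) =
        uJ q * uU l v + w l (Sum.inl v) * N l (Sum.inl v) (Sum.inr q) := by
      rw [← h8, add_assoc, z2_self, add_zero]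
    rw [h9]
    ring
  have hb : (∀ v, (z (Sum.inl v) + e) * w l (Sum.inl v) = 0) ∧
      ∑ v, (z (Sum.inl v) + e) * uU l v = 0 := by
    by_contra hcon2
    have h10 : (∃ v, (z (Sum.inl v) + e) * w l (Sum.inl v) ≠ 0) ∨
        ∑ v, (z (Sum.inl v) + e) * uU l v ≠ 0 := by
      by_contra hcon3
      push Not at hcon3
      exact hcon2 hcon3
    obtain ⟨k, hk⟩ := hl.lab l (fun v => (z (Sum.inl v) + e) * w l (Sum.inl v))
      (∑ v, (z (Sum.inl v) + e) * uU l v) h10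
    exact hk (h7 k)
  have hzU : ∀ v, z (Sum.inl v) = e := by
    intro v
    by_contra hv
    have hv1 := z2_ne hv
    have hwv : w l (Sum.inl v) = 0 := by
      have := hb.1 v
      rw [hv1, one_mul] at this
      exact this
    obtain ⟨hu, huniq⟩ := hl.w0 l v hwv
    have h11 := hb.2
    rw [Finset.sum_eq_single v] at h11
    · rw [hv1, hu] at h11
      exact absurd h11 (by decide)
    · intro v' _ hv'
      have h12 : w l (Sum.inl v') ≠ 0 := fun h => hv' (huniq v' h).symm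
      have h13 := hb.1 v'
      rw [z2_one' h12, mul_one] at h13
      rw [h13, zero_mul]
    · intro h
      exact absurd (Finset.mem_univ _) h
  obtain ⟨p, hp⟩ := hind l (fun j => c ⟨l, j⟩) ⟨i, hi⟩ e
  apply hp
  rcases p with v | q
  · exact hzU v
  · exact hzJ q

end main

theorem t_GRD : S_GRD := by
  intro t n K U _ J _ w uU uJ N NJ x JR hl hJ ξ hind hc hor
  obtain ⟨r, c, hc', hn⟩ := four hl hJ ξ hind hor hc
  obtain ⟨q0⟩ := hJ
  refine ⟨r, c, hc', ∑ i, c i * Xf ξ q0 i, hn, fun q => DX_const _ hc' q q0, ?_⟩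
  intro l₀ q hq
  rw [third hl ξ hor hc' r l₀ q hq, DX_const _ hc' q q0]

end Pool.Agent.L0h71.SJ
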