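import Pool.Agent.L0h1.SJ.StmA

/-! # SJ, module ROW: the relation of the rows -/

set_option autoImplicit false

open scoped Classical

namespace Pool.Agent.L0h71.SJ

open Finset Pool.Agent.L0h1.SJ

theorem z2_self (a : ZMod 2) : a + a = 0 := by
  have h : ∀ a : ZMod 2, a + a = 0 := by decide
  exact h a

theorem z2_sq (a : ZMod 2) : a * a = a := by
  have h : ∀ a : ZMod 2, a * a = a := by decide
  exact h a

theorem z2_eq {a b : ZMod 2} (h : a + b = 0) : a = b := by
  have h' : ∀ a b : ZMod 2, a + b = 0 → a = b := by decide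
  exact h' a b h

/-- The sum of a symmetric function over all pairs is the sum over the diagonal. -/
theorem sum_symm {V : Type} [Fintype V] (f : V → V → ZMod 2) (hf : ∀ p q, f p q = f q p) :
    ∑ q, ∑ p, f q p = ∑ q, f q q := by
  have h1 : ∑ x : V × V, (f x.1 x.2 + if x.1 = x.2 then f x.1 x.1 else 0) = 0 := by
    refine Finset.sum_involution (fun a _ => a.swap) ?_ ?_ (fun _ _ => Finset.mem_univ _)
      (fun a _ => Prod.swap_swap a)
    · rintro ⟨a, b⟩ _
      simp only [Prod.swap]
      by_cases hab : a = b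
      · subst hab
        simp only [if_true]
        exact z2_self _
      · rw [if_neg hab, if_neg (Ne.symm hab), add_zero, add_zero, hf b a, z2_self]
    · rintro ⟨a, b⟩ _ hne heq
      simp only [Prod.swap, Prod.mk.injEq] at heq
      apply hne
      have hab : a = b := heq.2
      subst hab
      simp only [if_true]
      exact z2_self _
  rw [Finset.sum_add_distrib, Fintype.sum_prod_type, Fintype.sum_prod_type] at h1
  have h2 := z2_eq h1
  rw [h2]
  refine Finset.sum_congr rfl fun q _ => ?_
  simp

theorem row_sum {V : Type} [Fintype V] (w u x : V → ZMod 2) (N : V → V → ZMod 2)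
    (hu : ∑ v, u v = 1) (hrc : ∀ i j, i ≠ j → w i * N i j + w j * N j i = u i * u j) :
    ∑ q, w q * ∑ p, (x p + x q) * N q p = 0 := by
  have h1 := sum_symm (fun q p => w q * ((x p + x q) * N q p) + x p * u p * u q) (by
    intro p q
    by_cases hpq : p = q
    · rw [hpq]
    · apply z2_eq
      have h2 := hrc p q hpq
      have h3 : (w p * ((x q + x p) * N p q) + x q * u q * u p) +
          (w q * ((x p + x q) * N q p) + x p * u p * u q) =
          (x p + x q) * (w p * N p q + w q * N q p) + (x p + x q) * (u p * u q) := by ring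
      rw [h3, h2, z2_self])
  have h4 : ∀ q, (w q * ((x q + x q) * N q q) + x q * u q * u q) = x q * u q := by
    intro q
    rw [z2_self, zero_mul, mul_zero, zero_add, mul_assoc, z2_sq]
  simp only [h4] at h1
  have h5 : ∑ q, ∑ p, (w q * ((x p + x q) * N q p) + x p * u p * u q) =
      ∑ q, w q * ∑ p, (x p + x q) * N q p + ∑ q, x q * u q := by
    simp_rw [Finset.sum_add_distrib, ← Finset.sum_mul, ← Finset.mul_sum]
    rw [hu, mul_one]
  rw [h5] at h1
  have h6 : ∑ q, w q * ∑ p, (x p + x q) * N q p + ∑ q, x q * u q + ∑ q, x q * u q =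
      ∑ q, x q * u q + ∑ q, x q * u q := by rw [h1]
  rw [add_assoc, z2_self, add_zero] at h6
  exact h6

theorem t_ROW : S_ROW := by
  intro t n K U _ J _ w uU uJ N NJ x JR hl ξ hs i
  obtain ⟨l, i⟩ := i
  have h1 := row_sum (w l) (Sum.elim (uU l) uJ) (ξ l i) (N l) (by
    rw [Fintype.sum_sum_type]
    simp only [Sum.elim_inl, Sum.elim_inr]
    exact hl.su l) (hl.rc l)
  rw [Fintype.sum_sum_type] at h1
  have h2 : ∑ v, w l (Sum.inl v) * ∑ p, (ξ l i p + ξ l i (Sum.inl v)) * N l (Sum.inl v) p = 0 := by
    refine Finset.sum_eq_zero fun v _ => ?_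
    have := hs l i v
    unfold L0h1.SJ.sq at this
    rw [this, mul_zero]
  rw [h2, zero_add] at h1
  rw [← h1]
  refine Finset.sum_congr rfl fun q _ => ?_
  rw [hl.w1, one_mul]
  rfl

end Pool.Agent.L0h71.SJ
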